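import Pool.Agent.N20.DI.Stm2
import Pool.Agent.Y286.NV.Fin

/-!
# Project DI, INV2: the block induced by the block of an invariant character is invariant

Author: helper697 (project DI of helper20).
-/

set_option autoImplicit false

open scoped Classical BigOperators

noncomputable section

namespace Pool.Agent.N697.DIINV2

open Pool.Agent.Y63.NV
open Pool.Agent.Y63.KR
open Pool.Agent.Y63.AWC (IsIrreducibleCharacter)
open Pool.Agent.R674.Tw (Fixes GCh NG NE NEbar ng_le ng_conj IndB invSum)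

/-- conjugation -/
def cj {E : Type} [Group E] (G : Subgroup E) [G.Normal] (σ : Set (Subgroup E)) (h : E)
    (hh : h ∈ chainStabilizer σ) : NG G σ ≃* NG G σ where
  toFun x := ⟨h * x * h⁻¹, ng_conj G hh x.2⟩
  invFun x := ⟨h⁻¹ * x * h, by
    have h1 := ng_conj G ((chainStabilizer σ).inv_mem hh) x.2
    rw [inv_inv] at h1
    exact h1⟩
  left_inv x := Subtype.ext (by
    show h⁻¹ * (h * (x : E) * h⁻¹) * h = x
    group)
  right_inv x := Subtype.ext (by
    show h * (h⁻¹ * (x : E) * h) * h⁻¹ = x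
    group)
  map_mul' x y := Subtype.ext (by
    show h * ((x : E) * y) * h⁻¹ = (h * x * h⁻¹) * (h * y * h⁻¹)
    group)

theorem INV2 : Pool.Agent.N20.DI.S_INV2 := by
  intro p _ F _ _ _ red E _ _ G _ U B σ χ hB hχ hU hInd g hg f f' hf hff'
  have hf' : IsClassFun f' := by
    intro a x
    have ha : g⁻¹ * (a : E) * g ∈ G := by
      have h1 := Subgroup.Normal.conj_mem (inferInstance : G.Normal) (a : E) a.2 g⁻¹
      rw [inv_inv] at h1
      exact h1
    have hx : g⁻¹ * (x : E) * g ∈ G := by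
      have h1 := Subgroup.Normal.conj_mem (inferInstance : G.Normal) (x : E) x.2 g⁻¹
      rw [inv_inv] at h1
      exact h1
    have e1 : f' x = f ⟨_, hx⟩ := by
      refine hff' _ _ ?_
      show (x : E) = g * (g⁻¹ * (x : E) * g) * g⁻¹
      group
    have e2 : f' (a * x * a⁻¹) = f (⟨_, ha⟩ * ⟨_, hx⟩ * (⟨_, ha⟩ : G)⁻¹) := by
      refine hff' _ _ ?_
      show (a : E) * x * (a : E)⁻¹ =
        g * ((g⁻¹ * (a : E) * g) * (g⁻¹ * (x : E) * g) * (g⁻¹ * (a : E) * g)⁻¹) * g⁻¹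
      group
    rw [e2, hf, e1]
  obtain ⟨h, hh, hmk⟩ := hU (show QuotientGroup.mk' G g ∈ U from hg)
  have hh1 : h ∈ chainStabilizer σ := hh.1
  have hh2 : Fixes h χ := hh.2
  have hn : h⁻¹ * g ∈ G := QuotientGroup.eq.1 hmk
  have key : ∀ x y : G, (y : E) = h * x * h⁻¹ → f' y = f x := by
    intro x y hxy
    have e1 : f' y = f ((⟨_, hn⟩ : G)⁻¹ * x * (⟨_, hn⟩ : G)) := by
      refine hff' _ _ ?_
      show (y : E) = g * ((h⁻¹ * g)⁻¹ * (x : E) * (h⁻¹ * g)) * g⁻¹
      rw [hxy]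
      group
    rw [e1]
    have e2 := hf (⟨_, hn⟩ : G)⁻¹ x
    rw [inv_inv] at e2
    exact e2
  have hφ : IsClassFun (fun x : NG G σ => f' ⟨x, ng_le G σ x.2⟩) := by
    intro a x
    exact hf' ⟨a, ng_le G σ a.2⟩ ⟨x, ng_le G σ x.2⟩
  have hc := Pool.Agent.Y286.NV.centralValue_comp red (cj G σ h hh1) χ
    (Pool.Agent.Y286.NV.irr_class hχ) (fun x : NG G σ => f' ⟨x, ng_le G σ x.2⟩) hφ
  have e1 : (fun x => χ (cj G σ h hh1 x)) = χ := by
    funext x
    exact hh2 x _ rfl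
  have e2 : (fun x : NG G σ => f' ⟨(cj G σ h hh1 x : NG G σ), ng_le G σ (cj G σ h hh1 x).2⟩) =
      fun x : NG G σ => f ⟨x, ng_le G σ x.2⟩ := by
    funext x
    exact key _ _ rfl
  rw [e1, e2] at hc
  rw [← hInd f hf, ← hInd f' hf', hc]

end Pool.Agent.N697.DIINV2
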