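import Pool.Agent.N988.ET.Stm

/-!
# Project ET, part M6 (helper697): one half of a branch is open
-/

set_option autoImplicit false

open Pool.Agent.N988.EA Pool.Agent.N988.EC Pool.Agent.N988.EP Pool.Agent.N988.ES Pool.Agent.N988.ET

namespace Pool.Agent.N697.ET

noncomputable section

theorem t_D2 (h1 : S_B1) (h2 : S_FR) (h3 : S_FAC) : S_D2 := by
  intro b p hc n F i s a hctx hopen hK hI
  have hb : 2 ≤ b := hc.two
  have hp : 0 < p := hc.pos
  have hp1 : p < 1 := hc.lt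
  obtain ⟨c, hc0, f1, f2, f3, f4, f5⟩ := h3 b p hc n F i a hctx
  obtain ⟨g1, g2, g3, g4, g5⟩ := h1 b n (by omega) p hp hp1
  obtain ⟨m1, m2, m3, m4, m5⟩ := h1 b (n + 1) (by omega) p hp hp1
  -- the numbers
  obtain ⟨q, hq⟩ : ∃ q, q = 1 - p ^ 2 := ⟨_, rfl⟩
  have hq0 : 0 < q := by rw [hq]; nlinarith
  have hq1 : q < 1 := by rw [hq]; nlinarith
  obtain ⟨k, hk⟩ : ∃ k, k = F.card := ⟨_, rfl⟩
  have hkb : k + 1 ≤ b := by
    rw [hk]
    have := Finset.card_lt_univ_of_notMem hctx.1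
    rw [Fintype.card_fin] at this
    omega
  obtain ⟨r, hr⟩ : ∃ r, r = rho b p := ⟨_, rfl⟩
  have hr' : r = p * q ^ (b - 1) := by rw [hr, hq]; rfl
  have hqk : 0 < q ^ k := pow_pos hq0 k
  have hqk1 : q ^ k ≤ 1 := pow_le_one₀ hq0.le hq1.le
  have hqb : 0 < q ^ (b - 1) := pow_pos hq0 _
  have hqbk : q ^ (b - 1) ≤ q ^ k := pow_le_pow_of_le_one hq0.le hq1.le (by omega)
  have hqb1 : q ^ (b - 1) ≤ 1 := pow_le_one₀ hq0.le hq1.le
  have hr0 : 0 < r := by rw [hr']; exact mul_pos hp hqb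
  have hr1 : r ≤ 1 := by rw [hr']; nlinarith
  have hrk : r < q ^ k := by rw [hr']; nlinarith
  have hrn : 0 < r ^ n := pow_pos hr0 n
  rw [← hq, ← hk] at f2 f3 f4
  rw [← hr] at f4
  -- the halves
  obtain ⟨P, hP⟩ : ∃ P, P = pf p (cs a i s) := ⟨_, rfl⟩
  obtain ⟨X, hX⟩ : ∃ X, X = px p (cs a i s) := ⟨_, rfl⟩
  obtain ⟨P', hP'⟩ : ∃ P', P' = pf p (cs a i (!s)) := ⟨_, rfl⟩
  have hX' : px p (cs a i (!s)) = P' := by rw [hopen, hP']
  have hP0 : 0 < P := by rw [hP]; exact (g1 _).1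
  have hP'0 : 0 < P' := by rw [hP']; exact (g1 _).1
  have hX0 : 0 < X := by
    rw [hX]
    exact lt_of_le_of_ne (g1 _).2.1 fun h => hK ((g3 _).2 (Or.inl h.symm))
  have hXP : X < P := by
    rw [hX, hP]
    exact lt_of_le_of_ne (g1 _).2.2 fun h => hK ((g3 _).2 (Or.inr h))
  have e1 : pf p (cs a i false) * pf p (cs a i true) = P * P' := by
    rw [hP, hP']
    cases s
    · rfl
    · exact mul_comm _ _
  have e2 : px p (cs a i false) * px p (cs a i true) = X * P' := by
    rw [hX, ← hX']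
    cases s
    · rfl
    · exact mul_comm _ _
  rw [e1] at f1
  rw [e1, e2] at f2 f4
  have f3s : ∀ e, pp p a ((i, s, e) : Edge b (n + 1)) = c * q ^ k * (pp p (cs a i s) e * P') := fun e => by
    rw [f3, hX']
  -- the best edge of the active half
  obtain ⟨e₀, h0, h4, h5⟩ : ∃ e₀, cs a i s e₀ = none ∧ r ^ n * (P - X) ≤ (1 - p) * pp p (cs a i s) e₀ ∧
      r ^ n * P ≤ pp p (cs a i s) e₀ := by
    rcases hI with hI | ⟨e, i1, i2, i3, i4⟩
    · obtain ⟨e, he, -⟩ := g5 _ hK
      obtain ⟨j1, j2, j3⟩ := h2 b p hc n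
      refine ⟨e, he, ?_, ?_⟩
      · rw [hP, hX, hI, j1, j2, j3, ← hr, mul_comm]
      · rw [hP, hI, j1, j3, ← hr, mul_one]
    · refine ⟨e, i1, ?_, ?_⟩
      · rw [hP, hX, hr]
        exact i2
      · rw [hP, hr]
        exact i4.le
  obtain ⟨Y, hY⟩ : ∃ Y, Y = pp p (cs a i s) e₀ := ⟨_, rfl⟩
  rw [← hY] at h4 h5
  have hY0 : 0 < Y := lt_of_lt_of_le (mul_pos hrn hP0) h5
  have f3Y : pp p a ((i, s, e₀) : Edge b (n + 1)) = c * q ^ k * (Y * P') := by rw [f3s, hY]
  have hcP : 0 < c * P' := mul_pos hc0 hP'0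
  have hcq : 0 < c * q ^ k * P' := mul_pos (mul_pos hc0 hqk) hP'0
  have hd : pf p a - px p a = (c * q ^ k * P') * (P - X) := by rw [f2]; ring
  have hf : pf p a = (c * P') * P := by rw [f1]; ring
  have hx : px p a = (c * P') * (P - q ^ k * (P - X)) := by
    have : px p a = pf p a - (pf p a - px p a) := by ring
    rw [this, hd, hf]
    ring
  have hlt : P - q ^ k * (P - X) < P := by
    have := mul_pos hqk (sub_pos.2 hXP)
    linarith
  have hgt : 0 < P - q ^ k * (P - X) := by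
    have : q ^ k * (P - X) ≤ 1 * (P - X) := mul_le_mul_of_nonneg_right hqk1 (sub_pos.2 hXP).le
    linarith
  refine ⟨fun hKa => ?_, ⟨((i, s, e₀) : Edge b (n + 1)), h0, ?_, ?_, ?_⟩, fun e he => ?_⟩
  · rcases (m3 a).1 hKa with h | h
    · rw [hx] at h
      exact absurd h (mul_pos hcP hgt).ne'
    · have : pf p a - px p a = 0 := by rw [h, sub_self]
      rw [hd] at this
      exact absurd this (mul_pos hcq (sub_pos.2 hXP)).ne'
  · rw [hd, f3Y, ← hr, pow_succ]
    have h6 : r * (r ^ n * (P - X)) ≤ 1 * (r ^ n * (P - X)) :=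
      mul_le_mul_of_nonneg_right hr1 (mul_pos hrn (sub_pos.2 hXP)).le
    have h7 : r * (r ^ n * (P - X)) ≤ (1 - p) * Y := by linarith
    calc r ^ n * r * (c * q ^ k * P' * (P - X)) = (c * q ^ k * P') * (r * (r ^ n * (P - X))) := by ring
      _ ≤ (c * q ^ k * P') * ((1 - p) * Y) := mul_le_mul_of_nonneg_left h7 hcq.le
      _ = (1 - p) * (c * q ^ k * (Y * P')) := by ring
  · rw [hx, f3Y, ← hr, pow_succ]
    have h6 : q ^ (b - 1) * (P - q ^ k * (P - X)) < q ^ k * P :=
      calc q ^ (b - 1) * (P - q ^ k * (P - X)) < q ^ (b - 1) * P := mul_lt_mul_of_pos_left hlt hqb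
        _ ≤ q ^ k * P := mul_le_mul_of_nonneg_right hqbk hP0.le
    have h7 : r ^ n * (q ^ (b - 1) * (P - q ^ k * (P - X))) < q ^ k * Y :=
      calc r ^ n * (q ^ (b - 1) * (P - q ^ k * (P - X))) < r ^ n * (q ^ k * P) :=
            mul_lt_mul_of_pos_left h6 hrn
        _ = q ^ k * (r ^ n * P) := by ring
        _ ≤ q ^ k * Y := mul_le_mul_of_nonneg_left h5 hqk.le
    calc r ^ n * r * (c * P' * (P - q ^ k * (P - X)))
        = (c * P' * p) * (r ^ n * (q ^ (b - 1) * (P - q ^ k * (P - X)))) := by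
          nth_rewrite 2 [hr']
          ring
      _ < (c * P' * p) * (q ^ k * Y) := mul_lt_mul_of_pos_left h7 (mul_pos hcP hp)
      _ = p * (c * q ^ k * (Y * P')) := by ring
  · rw [hf, f3Y, ← hr, pow_succ]
    have h6 : r * (r ^ n * P) < q ^ k * (r ^ n * P) := mul_lt_mul_of_pos_right hrk (mul_pos hrn hP0)
    have h7 : r * (r ^ n * P) < q ^ k * Y := lt_of_lt_of_le h6 (mul_le_mul_of_nonneg_left h5 hqk.le)
    calc r ^ n * r * (c * P' * P) = (c * P') * (r * (r ^ n * P)) := by ring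
      _ < (c * P') * (q ^ k * Y) := mul_lt_mul_of_pos_left h7 hcP
      _ = c * q ^ k * (Y * P') := by ring
  · obtain ⟨j, s', e'⟩ : Fin b × Bool × Edge b n := e
    obtain ⟨he1, he2⟩ := he
    have h6 : c * q ^ k * (Y * P') ≤ pp p a ((j, s', e') : Edge b (n + 1)) := by
      rw [← f3Y]
      exact he2 _ h0
    have hpos : 0 < c * q ^ k * (Y * P') := mul_pos (mul_pos hc0 hqk) (mul_pos hY0 hP'0)
    by_cases hj : j = i
    · subst hj
      by_cases hs : s' = s
      · subst hs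
        refine ⟨e', rfl, he1, fun e'' he'' => ?_⟩
        have h7 : c * q ^ k * (pp p (cs a j s') e'' * P') ≤ c * q ^ k * (pp p (cs a j s') e' * P') := by
          rw [← f3s, ← f3s]
          exact he2 _ he''
        exact le_of_mul_le_mul_right (le_of_mul_le_mul_left h7 (mul_pos hc0 hqk)) hP'0
      · exfalso
        obtain rfl : s' = !s := by
          cases s <;> cases s' <;> simp_all
        rw [f3, (g4 (cs a j (!s)) e').2 he1 ((g3 _).2 (Or.inr hopen)), zero_mul, mul_zero] at h6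
        linarith
    · exfalso
      by_cases hjF : j ∈ F
      · rw [f4 j hjF] at h6
        have hk1 : 1 ≤ k := by
          rw [hk]
          exact Finset.card_pos.2 ⟨j, hjF⟩
        have hqq : q ^ k = q ^ (k - 1) * q := by
          rw [← pow_succ, Nat.sub_add_cancel hk1]
        have h7 : r ^ n * p * (P - X) < q * Y := by
          have h8 : (1 + p) * (r ^ n * (P - X)) ≤ (1 + p) * ((1 - p) * Y) :=
            mul_le_mul_of_nonneg_left h4 (by linarith)
          have h9 : 0 < r ^ n * (P - X) := mul_pos hrn (sub_pos.2 hXP)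
          have h10 : q * Y = (1 + p) * ((1 - p) * Y) := by rw [hq]; ring
          rw [h10]
          nlinarith
        have h8 : (c * q ^ (k - 1) * P') * (r ^ n * p * (P - X)) < (c * q ^ (k - 1) * P') * (q * Y) :=
          mul_lt_mul_of_pos_left h7 (mul_pos (mul_pos hc0 (pow_pos hq0 _)) hP'0)
        have h9 : (c * q ^ (k - 1) * P') * (q * Y) = c * q ^ k * (Y * P') := by rw [hqq]; ring
        have h10 : c * q ^ (k - 1) * (r ^ n * p) * (P * P' - X * P') =
          (c * q ^ (k - 1) * P') * (r ^ n * p * (P - X)) := by ring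
        rw [h10] at h6
        linarith
      · rw [f5 j hjF hj s' e' he1] at h6
        linarith

end

end Pool.Agent.N697.ET
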