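import Pool.Agent.N804.PV.StmG
import Pool.Agent.Helper256.KM.Mertens

/-!
# PV/LAM2: the sum of `Λ(n)² / n` (project PV of helper804)

Author: helper697.
-/

set_option autoImplicit false
set_option linter.all false

open Filter Topology

namespace Pool.Agent.N697.PV

/-- the sum over the primes up to `N` -/
noncomputable def Sp (f : ℕ → ℝ) (N : ℕ) : ℝ := ∑ p ∈ (Finset.Icc 1 N).filter Nat.Prime, f p

theorem Sp_succ (f : ℕ → ℝ) (N : ℕ) :
    Sp f (N + 1) = Sp f N + if (N + 1).Prime then f (N + 1) else 0 := by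
  unfold Sp
  rw [← Finset.insert_Icc_right_eq_Icc_add_one (by omega : 1 ≤ N + 1), Finset.filter_insert]
  split_ifs with h
  · rw [Finset.sum_insert (by simp)]
    ring
  · rw [add_zero]

theorem log_sub_le (N : ℕ) (hN : 1 ≤ N) :
    0 ≤ Real.log ((N + 1 : ℕ) : ℝ) - Real.log N ∧
      Real.log ((N + 1 : ℕ) : ℝ) - Real.log N ≤ Real.log 2 := by
  have h1 : (1 : ℝ) ≤ N := by exact_mod_cast hN
  constructor
  · rw [sub_nonneg]
    apply Real.log_le_log (by linarith)
    push_cast
    linarith
  · rw [← Real.log_div (by positivity) (by positivity)]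
    apply Real.log_le_log (by positivity)
    rw [div_le_iff₀ (by linarith)]
    push_cast
    linarith

theorem primes : ∃ K : ℝ, 0 ≤ K ∧ ∀ N : ℕ, 1 ≤ N →
    |Sp (fun p => Real.log p ^ 2 / p) N - Real.log N ^ 2 / 2| ≤ K * Real.log N := by
  obtain ⟨C, hC⟩ := Pool.Agent.Helper256.KM.Mert.mertens_log
  have hC0 : 0 ≤ C := (abs_nonneg _).trans (hC 1 le_rfl)
  have hl2 : Real.log 2 ≤ 1 := by
    have := Real.log_two_lt_d9
    linarith
  have key : ∀ N : ℕ, 1 ≤ N → |Sp (fun p => Real.log p ^ 2 / p) N - Real.log N ^ 2 / 2 -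
      (Sp (fun p => Real.log p / p) N - Real.log N) * Real.log N| ≤ (C + 1) * Real.log N := by
    intro N hN
    induction N, hN using Nat.le_induction with
    | base => simp [Sp, Finset.filter_singleton, Nat.not_prime_one]
    | succ N hN ih =>
      obtain ⟨h1, h2⟩ := log_sub_le N hN
      have h3 := hC N hN
      set l := Real.log N with hl
      set l' := Real.log ((N + 1 : ℕ) : ℝ) with hl'
      set Q := Sp (fun p => Real.log p ^ 2 / p) N with hQ
      set E := Sp (fun p => Real.log p / p) N with hE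
      have h3' : |E - l| ≤ C := h3
      rw [Sp_succ, Sp_succ, ← hQ, ← hE]
      have e1 : (if (N + 1).Prime then (fun p : ℕ => Real.log p ^ 2 / (p : ℝ)) (N + 1) else 0) =
          (if (N + 1).Prime then (fun p : ℕ => Real.log p / (p : ℝ)) (N + 1) else 0) * l' := by
        split_ifs
        · simp only
          rw [← hl']
          ring
        · ring
      rw [e1]
      set w := (if (N + 1).Prime then (fun p : ℕ => Real.log p / (p : ℝ)) (N + 1) else 0) with hw
      have e2 : Q + w * l' - l' ^ 2 / 2 - (E + w - l') * l' =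
          (Q - l ^ 2 / 2 - (E - l) * l) + (l' - l) * ((l' - l) / 2 - (E - l)) := by ring
      rw [e2]
      refine (abs_add_le _ _).trans ?_
      have e3 : |(l' - l) * ((l' - l) / 2 - (E - l))| ≤ (l' - l) * (C + 1) := by
        rw [abs_mul, abs_of_nonneg h1]
        refine mul_le_mul_of_nonneg_left ?_ h1
        refine (abs_sub _ _).trans ?_
        rw [abs_of_nonneg (by linarith)]
        linarith
      linarith
  refine ⟨2 * C + 1, by linarith, fun N hN => ?_⟩
  have h1 := key N hN
  have h2 : |Sp (fun p => Real.log p / p) N - Real.log N| ≤ C := hC N hN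
  have h3 : 0 ≤ Real.log N := Real.log_natCast_nonneg N
  have h4 : |(Sp (fun p => Real.log p / p) N - Real.log N) * Real.log N| ≤ C * Real.log N := by
    rw [abs_mul, abs_of_nonneg h3]
    exact mul_le_mul_of_nonneg_right h2 h3
  have h5 := abs_add_le (Sp (fun p => Real.log p ^ 2 / p) N - Real.log N ^ 2 / 2 -
      (Sp (fun p => Real.log p / p) N - Real.log N) * Real.log N)
      ((Sp (fun p => Real.log p / p) N - Real.log N) * Real.log N)
  rw [sub_add_cancel] at h5
  linarith

theorem nonprimes : ∃ K : ℝ, 0 ≤ K ∧ ∀ N : ℕ,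
    ∑ n ∈ (Finset.Icc 1 N).filter (fun n => ¬ n.Prime),
      ArithmeticFunction.vonMangoldt n / (n : ℝ) ≤ K := by
  have h := ArithmeticFunction.vonMangoldt.summable_residueClass_non_primes_div (q := 1) 1
  have h1 : ∀ n : ℕ, ArithmeticFunction.vonMangoldt.residueClass (q := 1) 1 n =
      ArithmeticFunction.vonMangoldt n := by
    intro n
    unfold ArithmeticFunction.vonMangoldt.residueClass
    rw [Set.indicator_of_mem]
    exact Subsingleton.elim _ _
  simp only [h1] at h
  have h0 : ∀ n : ℕ, 0 ≤ (if n.Prime then 0 else ArithmeticFunction.vonMangoldt n) / (n : ℝ) := by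
    intro n
    split_ifs
    · simp
    · exact div_nonneg ArithmeticFunction.vonMangoldt_nonneg (Nat.cast_nonneg _)
  refine ⟨∑' n : ℕ, (if n.Prime then 0 else ArithmeticFunction.vonMangoldt n) / (n : ℝ),
    tsum_nonneg h0, fun N => ?_⟩
  refine le_trans (le_of_eq ?_) (h.sum_le_tsum ((Finset.Icc 1 N).filter (fun n => ¬ n.Prime))
    (fun n _ => h0 n))
  refine Finset.sum_congr rfl fun n hn => ?_
  rw [if_neg (Finset.mem_filter.1 hn).2]

theorem total : ∃ K : ℝ, 0 ≤ K ∧ ∀ N : ℕ, 1 ≤ N →
    |(∑ n ∈ Finset.Icc 1 N, ArithmeticFunction.vonMangoldt n ^ 2 / (n : ℝ)) -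
      Real.log N ^ 2 / 2| ≤ K * Real.log N := by
  obtain ⟨K1, hK1, h1⟩ := primes
  obtain ⟨K2, hK2, h2⟩ := nonprimes
  refine ⟨K1 + K2, by linarith, fun N hN => ?_⟩
  have h3 := h1 N hN
  have h4 := h2 N
  have h5 : 0 ≤ Real.log N := Real.log_natCast_nonneg N
  rw [← Finset.sum_filter_add_sum_filter_not (Finset.Icc 1 N) Nat.Prime]
  have e1 : ∑ n ∈ (Finset.Icc 1 N).filter Nat.Prime,
      ArithmeticFunction.vonMangoldt n ^ 2 / (n : ℝ) =
      Sp (fun p => Real.log p ^ 2 / p) N := by
    unfold Sp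
    refine Finset.sum_congr rfl fun n hn => ?_
    rw [ArithmeticFunction.vonMangoldt_apply_prime (Finset.mem_filter.1 hn).2]
  rw [e1]
  set R := ∑ n ∈ (Finset.Icc 1 N).filter (fun n => ¬ n.Prime),
      ArithmeticFunction.vonMangoldt n ^ 2 / (n : ℝ) with hR
  have hR0 : 0 ≤ R := Finset.sum_nonneg fun n _ => by positivity
  have hR1 : R ≤ K2 * Real.log N := by
    calc R ≤ ∑ n ∈ (Finset.Icc 1 N).filter (fun n => ¬ n.Prime),
          (ArithmeticFunction.vonMangoldt n / (n : ℝ)) * Real.log N := by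
          refine Finset.sum_le_sum fun n hn => ?_
          have hn' := Finset.mem_Icc.1 (Finset.mem_filter.1 hn).1
          have hn1 : (0 : ℝ) < n := by exact_mod_cast hn'.1
          have e2 : ArithmeticFunction.vonMangoldt n ≤ Real.log N :=
            ArithmeticFunction.vonMangoldt_le_log.trans
              (Real.log_le_log hn1 (by exact_mod_cast hn'.2))
          have e3 : 0 ≤ ArithmeticFunction.vonMangoldt n / (n : ℝ) :=
            div_nonneg ArithmeticFunction.vonMangoldt_nonneg hn1.le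
          calc ArithmeticFunction.vonMangoldt n ^ 2 / (n : ℝ) =
              (ArithmeticFunction.vonMangoldt n / (n : ℝ)) *
                ArithmeticFunction.vonMangoldt n := by ring
            _ ≤ _ := mul_le_mul_of_nonneg_left e2 e3
      _ = (∑ n ∈ (Finset.Icc 1 N).filter (fun n => ¬ n.Prime),
          ArithmeticFunction.vonMangoldt n / (n : ℝ)) * Real.log N := by rw [Finset.sum_mul]
      _ ≤ K2 * Real.log N := mul_le_mul_of_nonneg_right h4 h5
  rw [abs_le] at h3 ⊢
  constructor <;> nlinarith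

theorem main : Pool.Agent.N804.PV.S_LAM2 := by
  obtain ⟨K, hK, h⟩ := total
  unfold Pool.Agent.N804.PV.S_LAM2
  have hl2 : Real.log 2 ≤ 1 := by
    have := Real.log_two_lt_d9
    linarith
  rw [tendsto_iff_norm_sub_tendsto_zero]
  have hlim : Tendsto (fun T : ℝ => (K + 1) / Real.log T) atTop (𝓝 0) :=
    Real.tendsto_log_atTop.const_div_atTop _
  refine squeeze_zero' (Filter.Eventually.of_forall fun _ => norm_nonneg _) ?_ hlim
  filter_upwards [eventually_ge_atTop (2 : ℝ)] with T hT
  have hN : 1 ≤ ⌊T⌋₊ := Nat.le_floor (by push_cast; linarith)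
  have h1 := h _ hN
  set N := ⌊T⌋₊ with hNdef
  have hNT : (N : ℝ) ≤ T := Nat.floor_le (by linarith)
  have hTN : T < N + 1 := Nat.lt_floor_add_one T
  have hN0 : (1 : ℝ) ≤ N := by exact_mod_cast hN
  have hl : 0 ≤ Real.log N := Real.log_natCast_nonneg N
  have hl1 : Real.log N ≤ Real.log T := Real.log_le_log (by linarith) hNT
  have hl3 : Real.log T ≤ Real.log N + 1 := by
    have e1 : Real.log T ≤ Real.log ((N + 1 : ℕ) : ℝ) :=
      Real.log_le_log (by linarith) (by push_cast; linarith)
    linarith [(log_sub_le N hN).2]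
  have hT0 : 0 < Real.log T := Real.log_pos (by linarith)
  set G := ∑ n ∈ Finset.Icc 1 N, ArithmeticFunction.vonMangoldt n ^ 2 / (n : ℝ) with hG
  have h2 : |G - Real.log T ^ 2 / 2| ≤ (K + 1) * Real.log T := by
    have e1 : |Real.log N ^ 2 / 2 - Real.log T ^ 2 / 2| ≤ Real.log T := by
      rw [abs_le]
      constructor <;> nlinarith
    have e2 : |G - Real.log T ^ 2 / 2| ≤ |G - Real.log N ^ 2 / 2| +
        |Real.log N ^ 2 / 2 - Real.log T ^ 2 / 2| := abs_sub_le _ _ _
    have e3 : K * Real.log N ≤ K * Real.log T := mul_le_mul_of_nonneg_left hl1 hK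
    linarith
  rw [Real.norm_eq_abs]
  have e4 : G / Real.log T ^ 2 - 1 / 2 = (G - Real.log T ^ 2 / 2) / Real.log T ^ 2 := by
    field_simp
  rw [e4, abs_div, abs_of_pos (by positivity : (0 : ℝ) < Real.log T ^ 2), div_le_div_iff₀
    (by positivity) hT0]
  calc |G - Real.log T ^ 2 / 2| * Real.log T ≤ ((K + 1) * Real.log T) * Real.log T :=
        mul_le_mul_of_nonneg_right h2 hT0.le
    _ = (K + 1) * Real.log T ^ 2 := by ring

end Pool.Agent.N697.PV
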