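import Pool.Agent.N894.WF.DefsS

/-!
# Project WF, leaf S1 (helper697): sofic groups are rank-sofic
-/

set_option autoImplicit false

namespace Pool.Agent.N697.WF

open N894.WF

theorem t_S1 : LeafS1 := by
  classical
  intro G _ hG F K
  obtain ⟨δ, hδ, h⟩ := hG
  obtain ⟨ε, hε⟩ : ∃ ε : ℝ, ε = δ / (2 * ((K : ℝ) + 1)) := ⟨_, rfl⟩
  have hK : (0 : ℝ) < 2 * ((K : ℝ) + 1) := by positivity
  have hε0 : 0 < ε := by rw [hε]; exact div_pos hδ hK
  have hKε : (K : ℝ) * ε < δ := by
    have h1 : ε * (2 * ((K : ℝ) + 1)) = δ := by rw [hε]; exact div_mul_cancel₀ _ hK.ne'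
    nlinarith
  obtain ⟨n, φ, hn, h1, h2⟩ := h (F ∪ (F ×ˢ F).image fun p => p.1 * p.2) ε hε0
  have hn0 : (0 : ℝ) < n := by exact_mod_cast hn
  refine ⟨Equiv.Perm (Fin n), inferInstance, inferInstance, φ, ?_⟩
  intro T hT hE g hg hg1 hmem
  -- the points moved by an error
  have hm : ∀ t ∈ T, ((Finset.univ.filter fun x => t x ≠ x).card : ℝ) ≤ ε * n := by
    intro t ht
    obtain ⟨x, a, ha, b, hb, rfl⟩ := hE t ht
    refine le_trans ?_ (h1 a (Finset.mem_union_left _ ha) b (Finset.mem_union_left _ hb)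
      (Finset.mem_union_right _ (Finset.mem_image.2 ⟨(a, b), Finset.mem_product.2 ⟨ha, hb⟩, rfl⟩)))
    norm_cast
    refine Finset.card_le_card_of_injOn (fun y => (φ (a * b))⁻¹ (x⁻¹ y)) ?_ ?_
    · intro y hy
      have hy' := (Finset.mem_filter.1 (Finset.mem_coe.1 hy)).2
      refine Finset.mem_coe.2 (Finset.mem_filter.2 ⟨Finset.mem_univ _, fun e => hy' ?_⟩)
      have e' : φ (a * b) ((φ (a * b))⁻¹ (x⁻¹ y)) = x⁻¹ y := Equiv.apply_symm_apply (φ (a * b)) _
      have e2 : φ a (φ b ((φ (a * b))⁻¹ (x⁻¹ y))) = x⁻¹ y := by rw [← e, e']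
      show x (φ a (φ b ((φ (a * b))⁻¹ (x⁻¹ y)))) = y
      rw [e2]
      exact Equiv.apply_symm_apply x y
    · intro y _ z _ e
      exact (x⁻¹).injective ((φ (a * b))⁻¹.injective e)
  obtain ⟨Z, hZ⟩ : ∃ Z : Finset (Fin n), Z = T.biUnion fun t => Finset.univ.filter fun x => t x ≠ x := ⟨_, rfl⟩
  have hZc : (Z.card : ℝ) ≤ K * ε * n := by
    have h3 : Z.card ≤ ∑ t ∈ T, (Finset.univ.filter fun x => t x ≠ x).card := by
      rw [hZ]
      exact Finset.card_biUnion_le
    have h4 : (Z.card : ℝ) ≤ ∑ t ∈ T, ((Finset.univ.filter fun x => t x ≠ x).card : ℝ) := by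
      exact_mod_cast h3
    have h5 : ∑ t ∈ T, ((Finset.univ.filter fun x => t x ≠ x).card : ℝ) ≤ ∑ _t ∈ T, ε * n :=
      Finset.sum_le_sum hm
    rw [Finset.sum_const, nsmul_eq_mul] at h5
    have h6 : (T.card : ℝ) ≤ K := by exact_mod_cast hT
    have h7 : (T.card : ℝ) * (ε * n) ≤ K * (ε * n) :=
      mul_le_mul_of_nonneg_right h6 (mul_pos hε0 hn0).le
    linarith [mul_assoc (K : ℝ) ε n]
  have hfix : ∀ p ∈ Subgroup.closure (T : Set (Equiv.Perm (Fin n))), ∀ y, y ∉ Z → p y = y := by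
    intro p hp
    induction hp using Subgroup.closure_induction with
    | mem t ht =>
      intro y hy
      by_contra hne
      exact hy (by
        rw [hZ]
        exact Finset.mem_biUnion.2 ⟨t, ht, Finset.mem_filter.2 ⟨Finset.mem_univ _, hne⟩⟩)
    | one => intro y _; rfl
    | mul a b _ _ iha ihb =>
      intro y hy
      show a (b y) = y
      rw [ihb y hy, iha y hy]
    | inv a _ iha =>
      intro y hy
      have := iha y hy
      show a.symm y = y
      rw [Equiv.symm_apply_eq]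
      exact this.symm
  have hsub : (Finset.univ.filter fun x => φ g x ≠ x) ⊆ Z := by
    intro y hy
    by_contra hyZ
    exact (Finset.mem_filter.1 hy).2 (hfix _ hmem y hyZ)
  have h3 : ((Finset.univ.filter fun x => φ g x ≠ x).card : ℝ) ≤ Z.card := by
    exact_mod_cast Finset.card_le_card hsub
  have h4 := h2 g (Finset.mem_union_left _ hg) hg1
  have h5 : K * ε * n < δ * n := mul_lt_mul_of_pos_right hKε hn0
  linarith

end Pool.Agent.N697.WF
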